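import Pool.Agent.Y706.SB.Stm

/-!
# Degrees in the compositum with an algebraic extension of the constants
-/

set_option autoImplicit false

namespace Pool.Agent.Y93.SB

open IntermediateField Pool.Agent.Y706.SB

/-- SB-CMP -/
theorem t_CMP : S_CMP := by
  intro k K E L _ _ _ _ _ _ _ _ φ hφ htop t ht hfin
  let _ : Algebra k L := ((algebraMap E L).comp (algebraMap k E)).toAlgebra
  have : IsScalarTower k E L := IsScalarTower.of_algebraMap_eq (fun _ => rfl)
  let φ' : K →ₐ[k] L := { φ with commutes' := fun c => hφ c }
  have hφ' : ∀ x, φ' x = φ x := fun x => rfl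
  -- the homomorphism from `k(t)` to `E(φ t)`
  set F1 := IntermediateField.adjoin E {φ t} with hF1
  have hle : IntermediateField.adjoin k {t} ≤ (F1.restrictScalars k).comap φ' := by
    rw [IntermediateField.adjoin_le_iff]
    intro y hy
    rw [Set.mem_singleton_iff] at hy
    rw [hy]
    show φ t ∈ F1
    exact IntermediateField.mem_adjoin_simple_self _ _
  have hmem : ∀ z ∈ IntermediateField.adjoin k {t}, φ z ∈ F1 := fun z hz => hle hz
  let b := Module.finBasis (IntermediateField.adjoin k {t}) K
  set W : Submodule F1 L := Submodule.span F1 (Set.range fun i => φ (b i)) with hW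
  have hKW : ∀ x : K, φ x ∈ W := by
    intro x
    rw [← b.sum_repr x, map_sum]
    refine Submodule.sum_mem _ fun i _ => ?_
    have h1 : φ (b.repr x i • b i) =
        (⟨φ ((b.repr x i : IntermediateField.adjoin k {t}) : K), hmem _ (b.repr x i).2⟩ : F1) •
          φ (b i) := by
      rw [Algebra.smul_def, map_mul, Algebra.smul_def]
      rfl
    rw [h1]
    exact Submodule.smul_mem _ _ (Submodule.subset_span ⟨i, rfl⟩)
  have hone : (1 : L) ∈ W := by
    have := hKW 1
    rwa [map_one] at this
  have hmul : ∀ x y : L, x ∈ W → y ∈ W → x * y ∈ W := by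
    intro x y hx hy
    have h1 : x * y ∈ W * W := Submodule.mul_mem_mul hx hy
    refine (?_ : W * W ≤ W) h1
    rw [hW, Submodule.span_mul_span, Submodule.span_le]
    rintro z ⟨u, ⟨i, rfl⟩, v, ⟨j, rfl⟩, rfl⟩
    show φ (b i) * φ (b j) ∈ W
    rw [← map_mul]
    exact hKW _
  have : FiniteDimensional F1 W := FiniteDimensional.span_of_finite F1 (Set.finite_range _)
  -- the field `W`
  set A : Subalgebra F1 L := W.toSubalgebra hone hmul with hA
  have hAfin : FiniteDimensional F1 A := by
    have : FiniteDimensional F1 W := inferInstance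
    exact this
  have hAfield : IsField A := by
    have : Algebra.IsIntegral F1 A := inferInstance
    exact isField_of_isIntegral_of_isField' (R := F1) (S := A) (Field.toIsField F1)
  let M : IntermediateField F1 L := A.toIntermediateField' hAfield
  have hMmem : ∀ x, x ∈ M ↔ x ∈ W := fun x => Iff.rfl
  have hM : IntermediateField.adjoin E (Set.range φ) ≤ M.restrictScalars E := by
    rw [IntermediateField.adjoin_le_iff]
    rintro y ⟨x, rfl⟩
    exact hKW x
  have hWtop : W = ⊤ := by
    rw [eq_top_iff]
    intro x _
    have h1 : x ∈ IntermediateField.adjoin E (Set.range φ) := by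
      rw [htop]
      exact IntermediateField.mem_top
    exact (hMmem x).mp (hM h1)
  refine ⟨?_, ?_, ?_⟩
  · intro h
    apply ht
    have h1 : IsAlgebraic k (φ' t) := h.restrictScalars k
    exact (isAlgebraic_algHom_iff φ' φ'.toRingHom.injective).mp h1
  · refine ⟨?_⟩
    rw [← hWtop, hW]
    exact Submodule.fg_span (Set.finite_range _)
  · have h1 : Module.finrank F1 L = Module.finrank F1 W := by
      rw [hWtop, finrank_top]
    rw [h1]
    have h2 := finrank_range_le_card (R := F1) (fun i => φ (b i))
    rw [Fintype.card_fin] at h2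
    exact h2

end Pool.Agent.Y93.SB
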