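import Pool.Agent.Y706.SB.Stm

/-!
# The square of the discriminant is a denominator of a derivation
-/

set_option autoImplicit false

namespace Pool.Agent.Y93.SB

open Polynomial IntermediateField

theorem isIntegral_aeval {R K : Type*} [CommRing R] [CommRing K] [Algebra R K] {g : K}
    (hg : IsIntegral R g) (q : R[X]) : IsIntegral R (aeval g q) := by
  rw [aeval_eq_sum_range]
  refine IsIntegral.sum _ fun i _ => ?_
  rw [Algebra.smul_def]
  exact isIntegral_algebraMap.mul (hg.pow i)

/-- An integral element divides its norm. -/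
theorem norm_div {R F K : Type*} [CommRing R] [IsDomain R] [IsIntegrallyClosed R] [Field F]
    [Algebra R F] [IsFractionRing R F] [Field K] [Algebra F K] [Algebra R K] [IsScalarTower R F K]
    [FiniteDimensional F K] [Algebra.IsSeparable F K] {γ : K} (hγ : IsIntegral R γ) :
    ∃ η : K, IsIntegral R η ∧ γ * η = algebraMap F K (Algebra.norm F γ) := by
  have hγF : IsIntegral F γ := hγ.tower_top
  have hp : minpoly F γ = (minpoly R γ).map (algebraMap R F) :=
    minpoly.isIntegrallyClosed_eq_field_fractions' F hγ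
  have h1 : γ * aeval γ (minpoly R γ).divX = -algebraMap R K ((minpoly R γ).coeff 0) := by
    have h2 : aeval γ (minpoly R γ) = 0 := minpoly.aeval R γ
    rw [← divX_mul_X_add (minpoly R γ)] at h2
    rw [map_add, map_mul, aeval_X, aeval_C] at h2
    linear_combination h2
  have hn : Algebra.norm F γ = ((-1) ^ (minpoly F γ).natDegree * (minpoly F γ).coeff 0) ^
      Module.finrank F⟮γ⟯ K := by
    rw [Algebra.norm_eq_norm_adjoin F γ]
    congr 1
    rw [← adjoin.powerBasis_gen hγF, Algebra.PowerBasis.norm_gen_eq_coeff_zero_minpoly,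
      adjoin.powerBasis_dim, adjoin.powerBasis_gen, minpoly_gen]
  obtain ⟨s, hs⟩ : ∃ s, Module.finrank F⟮γ⟯ K = s + 1 :=
    ⟨Module.finrank F⟮γ⟯ K - 1, by have := Module.finrank_pos (R := F⟮γ⟯) (M := K); omega⟩
  have hcoeff : algebraMap F K ((minpoly F γ).coeff 0) =
      algebraMap R K ((minpoly R γ).coeff 0) := by
    rw [hp, coeff_map, ← IsScalarTower.algebraMap_apply R F K]
  set k := (minpoly F γ).natDegree with hk
  set c := (minpoly R γ).coeff 0 with hc
  have hint : IsIntegral R (algebraMap R K c) := isIntegral_algebraMap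
  have hm1 : IsIntegral R (-1 : K) := isIntegral_one.neg
  have hq : IsIntegral R (aeval γ (minpoly R γ).divX) := isIntegral_aeval hγ _
  refine ⟨aeval γ (minpoly R γ).divX * (-1) ^ (k + 1) * ((-1) ^ k * algebraMap R K c) ^ s,
    (hq.mul (hm1.pow _)).mul (((hm1.pow _).mul hint).pow _), ?_⟩
  rw [hn, hs, map_pow, map_mul, map_pow, map_neg, map_one, hcoeff]
  calc γ * (aeval γ (minpoly R γ).divX * (-1) ^ (k + 1) * ((-1) ^ k * algebraMap R K c) ^ s)
      = (γ * aeval γ (minpoly R γ).divX) * (-1) ^ (k + 1) * ((-1) ^ k * algebraMap R K c) ^ s := by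
        ring
    _ = _ := by rw [h1]; ring

open Pool.Agent.TH951.W.UB Pool.Agent.Y706.SB

/-- SB-DEN -/
theorem t_DEN : S_DEN := by
  intro R F K _ _ _ _ _ _ _ _ _ _ D hD B hB s hs
  letI : Algebra R K := ((algebraMap F K).comp (algebraMap R F)).toAlgebra
  haveI : IsScalarTower R F K := IsScalarTower.of_algebraMap_eq (fun _ => rfl)
  have hB' : IsIntegral R B.gen := hB
  have hs' : IsIntegral R s := hs
  change IsIntegral R (algebraMap F K (Algebra.discr F B.basis) ^ 2 * D s)
  have hDR : ∀ r : R, IsIntegral R (D (algebraMap R K r)) := by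
    intro r
    obtain ⟨r', hr'⟩ := hD r
    have e : D (algebraMap R K r) = algebraMap R K r' := hr'.symm
    rw [e]
    exact isIntegral_algebraMap
  set g := B.gen with hg
  -- the chain rule
  have key : ∀ q : R[X], ∃ a : K, IsIntegral R a ∧
      D (aeval g q) = a + aeval g (derivative q) * D g := by
    intro q
    induction q using Polynomial.induction_on' with
    | add p q hp hq =>
      obtain ⟨a, ha, hpa⟩ := hp
      obtain ⟨b, hb, hqb⟩ := hq
      refine ⟨a + b, ha.add hb, ?_⟩
      rw [map_add, map_add, hpa, hqb, derivative_add, map_add]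
      ring
    | monomial n c =>
      refine ⟨D (algebraMap R K c) * g ^ n, (hDR c).mul (hB'.pow n), ?_⟩
      rw [derivative_monomial, aeval_monomial, aeval_monomial, Derivation.leibniz,
        Derivation.leibniz_pow, map_mul, map_natCast]
      simp only [smul_eq_mul, nsmul_eq_mul]
      ring
  obtain ⟨a, ha, hGa⟩ := key (minpoly R g)
  rw [minpoly.aeval, map_zero] at hGa
  set γ := aeval g (derivative (minpoly R g)) with hγ
  have hγi : IsIntegral R γ := isIntegral_aeval hB' _
  obtain ⟨η, hη, hγη⟩ := norm_div (R := R) (F := F) hγi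
  have hp : minpoly F g = (minpoly R g).map (algebraMap R F) :=
    minpoly.isIntegrallyClosed_eq_field_fractions' F hB'
  -- the discriminant
  have hdisc : ∃ e : K, IsIntegral R e ∧
      algebraMap F K (Algebra.discr F B.basis) * D g = e := by
    refine ⟨_, ?_, rfl⟩
    have h1 := Algebra.discr_powerBasis_eq_norm F B
    rw [← hg, hp, derivative_map, aeval_map_algebraMap, ← hγ] at h1
    rw [h1, map_mul, map_pow, map_neg, map_one, ← hγη]
    have h2 : ∀ ε : K, IsIntegral R ε → IsIntegral R (ε * (γ * η) * D g) := by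
      intro ε hε
      have h3 : ε * (γ * η) * D g = ε * η * (-a) := by linear_combination ε * η * (-hGa)
      rw [h3]
      exact (hε.mul hη).mul ha.neg
    exact h2 _ (isIntegral_one.neg.pow _)
  obtain ⟨e, he, hDg⟩ := hdisc
  have hdint : IsIntegral R (Algebra.discr F B.basis) := by
    refine Algebra.discr_isIntegral F fun i => ?_
    rw [B.basis_eq_pow]
    exact hB'.pow _
  obtain ⟨r, hr⟩ := IsIntegrallyClosed.isIntegral_iff.mp hdint
  have hΔ : algebraMap F K (Algebra.discr F B.basis) = algebraMap R K r := by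
    rw [← hr, ← IsScalarTower.algebraMap_apply R F K]
  have hmem := Algebra.discr_mul_isIntegral_mem_adjoin F hB' hs'
  rw [Algebra.adjoin_singleton_eq_range_aeval] at hmem
  obtain ⟨q, hq⟩ := hmem
  have hq' : aeval g q = algebraMap F K (Algebra.discr F B.basis) * s := by
    rw [← Algebra.smul_def]
    exact hq
  obtain ⟨a', ha', hDq⟩ := key q
  rw [hq', Derivation.leibniz] at hDq
  simp only [smul_eq_mul] at hDq
  set Δ := algebraMap F K (Algebra.discr F B.basis) with hΔ'
  have hΔi : IsIntegral R Δ := by rw [hΔ]; exact isIntegral_algebraMap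
  have hDΔ : IsIntegral R (D Δ) := by rw [hΔ]; exact hDR r
  have hfin : Δ ^ 2 * D s = Δ * a' + aeval g (derivative q) * e - Δ * D Δ * s := by
    rw [← hDg]
    linear_combination Δ * hDq
  rw [hfin]
  exact ((hΔi.mul ha').add ((isIntegral_aeval hB' _).mul he)).sub ((hΔi.mul hDΔ).mul hs')

end Pool.Agent.Y93.SB
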