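import Pool.Agent.Y706.SB.Stm
import Pool.Agent.TH951.P.FF

/-!
# Place data with small loss in characteristic `p`
-/

set_option autoImplicit false

namespace Pool.Agent.Y93.SB

open Polynomial Pool.Agent.TH951.W.UB Pool.Agent.Y706.SB

universe u w

section Add

variable {R F : Type*} [CommRing R] [Field F] [Algebra R F] {l : F → ℤ}

lemma addFn_one (hl : AddFn R l) : l 1 = 0 := by
  have := hl.unit 1 isUnit_one
  rwa [map_one] at this

lemma addFn_inv (hl : AddFn R l) {x : F} (hx : x ≠ 0) : l x⁻¹ = - l x := by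
  have h := hl.mul x x⁻¹ hx (inv_ne_zero hx)
  rw [mul_inv_cancel₀ hx, addFn_one hl] at h
  linarith

lemma addFn_pow (hl : AddFn R l) {x : F} (hx : x ≠ 0) (n : ℕ) : l (x ^ n) = n * l x := by
  induction n with
  | zero => rw [pow_zero, addFn_one hl]; simp
  | succ n ih =>
    rw [pow_succ, hl.mul _ _ (pow_ne_zero _ hx) hx, ih]
    push_cast
    ring

lemma addFn_zpow (hl : AddFn R l) {x : F} (hx : x ≠ 0) (n : ℤ) : l (x ^ n) = n * l x := by
  cases n with
  | ofNat n => simpa using addFn_pow hl hx n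
  | negSucc n =>
    rw [zpow_negSucc, addFn_inv hl (pow_ne_zero _ hx), addFn_pow hl hx]
    push_cast [Int.negSucc_eq]
    ring

lemma addFn_prod (hl : AddFn R l) {ι : Type*} (T : Finset ι) (f : ι → F)
    (hf : ∀ i ∈ T, f i ≠ 0) : l (∏ i ∈ T, f i) = ∑ i ∈ T, l (f i) := by
  classical
  induction T using Finset.induction_on with
  | empty => simp [addFn_one hl]
  | insert a s ha ih =>
    rw [Finset.prod_insert ha, Finset.sum_insert ha, hl.mul _ _ (hf a (Finset.mem_insert_self a s)),
      ih fun i hi => hf i (Finset.mem_insert_of_mem hi)]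
    rw [Finset.prod_ne_zero_iff]
    exact fun i hi => hf i (Finset.mem_insert_of_mem hi)

end Add

/-- The norm formula. -/
lemma chartQ_sum {R F K : Type*} [CommRing R] [Field F] [Algebra R F] [Field K] [Algebra F K]
    {D : Derivation ℤ K K} [FaithfulSMul R F] (ch : ChartQ.{w} R F K D) {l : F → ℤ}
    (hl : AddFn R l) (x : K) (hx : x ≠ 0) (T : Finset ch.Pl) (hT : ∀ v, v ∉ T → ch.ord v x = 0) :
    ∑ v ∈ T, l (algebraMap R F (ch.g v)) * ch.ord v x = l (Algebra.norm F x) := by
  have hg : ∀ v, algebraMap R F (ch.g v) ≠ 0 := by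
    intro v
    rw [Ne, map_eq_zero_iff _ (FaithfulSMul.algebraMap_injective R F)]
    exact ch.g_ne v
  obtain ⟨ε, hε, h⟩ := ch.norm x hx T hT
  rw [h, hl.mul, hl.unit _ hε, zero_add, addFn_prod hl]
  · refine Finset.sum_congr rfl fun v _ => ?_
    rw [addFn_zpow hl (hg v)]
    ring
  · intro v _
    exact zpow_ne_zero _ (hg v)
  · exact (hε.map (algebraMap R F)).ne_zero
  · rw [Finset.prod_ne_zero_iff]
    exact fun v _ => zpow_ne_zero _ (hg v)

/-- The chart data for a given denominator. -/
noncomputable def toCD {R F K : Type*} [CommRing R] [Field F] [Algebra R F] [Field K] [Algebra F K]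
    {D : Derivation ℤ K K} [FaithfulSMul R F] (ch : ChartQ.{w} R F K D) (l : F → ℤ)
    (hl : AddFn R l) (hpos : ∀ r : R, r ≠ 0 → ¬ IsUnit r → 1 ≤ l (algebraMap R F r)) (δ : R)
    (hδ : δ ≠ 0)
    (hδ2 : ∀ s : K, Integ R F s → Integ R F (algebraMap F K (algebraMap R F δ) * D s)) :
    ChartData.{w} R F K l D where
  Pl := ch.Pl
  ord := ch.ord
  wt := fun v => l (algebraMap R F (ch.g v))
  wt_one := fun v => hpos _ (ch.g_ne v) (ch.g_nu v)
  ord_mul := ch.ord_mul
  ord_add := ch.ord_add
  ord_unit := by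
    intro v a ha
    obtain ⟨b, hb⟩ := ha.exists_right_inv
    have hinj := FaithfulSMul.algebraMap_injective R F
    have ha0 : algebraMap R F a ≠ 0 := (ha.map (algebraMap R F)).ne_zero
    have hb0 : algebraMap R F b ≠ 0 := by
      intro h
      have h1 := congrArg (algebraMap R F) hb
      rw [map_mul, h, mul_zero, map_one] at h1
      exact zero_ne_one h1
    have ha1 : a ≠ 0 := by
      rintro rfl
      exact ha0 (map_zero _)
    have hb1 : b ≠ 0 := by
      rintro rfl
      exact hb0 (map_zero _)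
    have haK : algebraMap F K (algebraMap R F a) ≠ 0 := (_root_.map_ne_zero _).mpr ha0
    have hbK : algebraMap F K (algebraMap R F b) ≠ 0 := (_root_.map_ne_zero _).mpr hb0
    have h1 := ch.ord_mul v 1 1 one_ne_zero one_ne_zero
    rw [mul_one] at h1
    have h2 := ch.ord_mul v _ _ haK hbK
    rw [← map_mul, ← map_mul, hb, map_one, map_one] at h2
    have h3 := ch.ord_R v a ha1
    have h4 := ch.ord_R v b hb1
    omega
  fin := ch.fin
  sum := fun x hx T hT => chartQ_sum ch hl x hx T hT
  integral := ch.integral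
  dl := fun v => ch.ord v (algebraMap F K (algebraMap R F δ))
  dl_nonneg := fun v => ch.ord_R v δ hδ
  dl_fin := by
    apply ch.fin
    rw [_root_.map_ne_zero, Ne, map_eq_zero_iff _ (FaithfulSMul.algebraMap_injective R F)]
    exact hδ
  deriv := ch.deriv δ hδ hδ2

section Gen

variable (k : Type*) (K : Type w) [Field k] [Field K] [Algebra k K]
  [Algebra (RatFunc k) K] [IsScalarTower k (RatFunc k) K] [FiniteDimensional (RatFunc k) K]

/-- The place data from two charts. -/
noncomputable def mkPl (D : Derivation k K K)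
    (c1 : ChartData.{w} k[X] (RatFunc k) K (fun x => x.intDegree) (D.restrictScalars ℤ))
    (c2 : ChartData.{w} (InfRing k) (RatFunc k) K (fun x => -x.intDegree) (D.restrictScalars ℤ))
    (halg : ∀ x : K, IsAlgebraic k x → ∃ c : k, algebraMap k K c = x) : PlaceData.{w} k K := by
  classical
  have hdD : ∀ x, (D.restrictScalars ℤ) x = D x := fun _ => rfl
  have hconst : ∀ x : K, x ≠ 0 → (∀ v, 0 ≤ c1.ord v x) → (∀ v, 0 ≤ c2.ord v x) →
      ∃ c : k, algebraMap k K c = x := by
    intro x hx h1 h2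
    apply halg
    apply alg_of_coeff k K x (Algebra.IsIntegral.isIntegral x)
    intro n
    apply const_of_both k
    · exact c1.integral x hx h1 n
    · obtain ⟨r, hr⟩ := c2.integral x hx h2 n
      rw [← hr]
      exact r.2
  have hiter : ∀ x : K, ∀ j : ℕ, (D^[j + 1]) x ≠ 0 → (D^[j]) x ≠ 0 := by
    intro x j h h1
    rw [Function.iterate_succ_apply', h1, map_zero] at h
    exact h rfl
  -- iterated estimates at a single place
  have hit : ∀ (ord : K → ℤ) (l : ℤ), 0 ≤ l →
      (∀ x, x ≠ 0 → (D.restrictScalars ℤ) x ≠ 0 → ord x - 1 - l ≤ ord ((D.restrictScalars ℤ) x) ∧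
        (0 ≤ ord x → - l ≤ ord ((D.restrictScalars ℤ) x))) →
      (∀ x (j : ℕ) (m : ℤ), x ≠ 0 → (D^[j]) x ≠ 0 → m ≤ ord x →
        m - j - j * (2 * l) ≤ ord ((D^[j]) x)) ∧
      (∀ x (j : ℕ), x ≠ 0 → (D^[j]) x ≠ 0 → 0 ≤ ord x → - j * (2 * l) ≤ ord ((D^[j]) x)) := by
    intro ord l hl hst
    have hA : ∀ x (j : ℕ) (m : ℤ), x ≠ 0 → (D^[j]) x ≠ 0 → m ≤ ord x →
        m - j - j * l ≤ ord ((D^[j]) x) := by
      intro x j m hx
      induction j with
      | zero => intro _ h; simpa using h
      | succ j ih =>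
        intro h1 h2
        have h3 := hiter x j h1
        have h4 := ih h3 h2
        rw [Function.iterate_succ_apply'] at h1 ⊢
        have h5 := (hst _ h3 h1).1
        rw [hdD] at h5
        push_cast
        linarith
    refine ⟨?_, ?_⟩
    · intro x j m hx h1 h2
      have h3 := hA x j m hx h1 h2
      have h4 : (0 : ℤ) ≤ j * l := by positivity
      linarith
    · intro x j hx h1 h2
      rcases eq_or_lt_of_le hl with h0 | h0
      · subst h0
        have h3 : ∀ j : ℕ, (D^[j]) x ≠ 0 → 0 ≤ ord ((D^[j]) x) := by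
          intro j
          induction j with
          | zero => intro _; simpa using h2
          | succ j ih =>
            intro h1
            have h3 := hiter x j h1
            have h4 := ih h3
            rw [Function.iterate_succ_apply'] at h1 ⊢
            have h5 := (hst _ h3 h1).2 h4
            rw [hdD, neg_zero] at h5
            exact h5
        simpa using h3 j h1
      · have h3 := hA x j 0 hx h1 h2
        have h4 : (j : ℤ) * 1 ≤ j * l := mul_le_mul_of_nonneg_left h0 (Int.natCast_nonneg j)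
        linarith
  have hdl1 := fun v => hit (c1.ord v) (c1.dl v) (c1.dl_nonneg v) (c1.deriv v)
  have hdl2 := fun v => hit (c2.ord v) (c2.dl v) (c2.dl_nonneg v) (c2.deriv v)
  let ord : c1.Pl ⊕ c2.Pl → K → ℤ := Sum.elim c1.ord c2.ord
  let wt : c1.Pl ⊕ c2.Pl → ℤ := Sum.elim c1.wt c2.wt
  let loss : c1.Pl ⊕ c2.Pl → ℤ := Sum.elim (fun v => 2 * c1.dl v) (fun v => 2 * c2.dl v)
  let lossS : Finset (c1.Pl ⊕ c2.Pl) := c1.dl_fin.toFinset.disjSum c2.dl_fin.toFinset
  have hwt1 : ∀ v, 1 ≤ wt v := by
    rintro (v | v)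
    · exact c1.wt_one v
    · exact c2.wt_one v
  exact {
    Pl := c1.Pl ⊕ c2.Pl
    ord := ord
    wt := wt
    wt_nonneg := fun v => zero_le_one.trans (hwt1 v)
    wt_one := hwt1
    ord_mul := by
      rintro (v | v) x y hx hy
      · exact c1.ord_mul v x y hx hy
      · exact c2.ord_mul v x y hx hy
    ord_add := by
      rintro (v | v) x y m hx hy hxy h1 h2
      · exact c1.ord_add v x y m hx hy hxy h1 h2
      · exact c2.ord_add v x y m hx hy hxy h1 h2
    ord_alg := by
      rintro (v | v) c hc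
      · have h1 := c1.ord_unit v (C c) (isUnit_C.mpr (isUnit_iff_ne_zero.mpr hc))
        rw [IsScalarTower.algebraMap_apply k (RatFunc k) K]
        rw [RatFunc.algebraMap_C] at h1
        exact h1
      · obtain ⟨u, hu, hu'⟩ := isUnit_inf k c hc
        have h1 := c2.ord_unit v u hu
        rw [ValuationSubring.algebraMap_apply, hu', ← IsScalarTower.algebraMap_apply] at h1
        exact h1
    fin := by
      intro x hx
      have h1 : {v | ord v x ≠ 0} ⊆
          Sum.inl '' {v | c1.ord v x ≠ 0} ∪ Sum.inr '' {v | c2.ord v x ≠ 0} := by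
        rintro (v | v) hv
        · left
          exact ⟨v, hv, rfl⟩
        · right
          exact ⟨v, hv, rfl⟩
      exact (((c1.fin x hx).image _).union ((c2.fin x hx).image _)).subset h1
    prod_formula := by
      intro x hx S hS
      set T1 := S.toLeft ∪ (c1.fin x hx).toFinset with hT1
      set T2 := S.toRight ∪ (c2.fin x hx).toFinset with hT2
      have h1 := c1.sum x hx T1 (by
        intro v hv
        by_contra h
        exact hv (by simp [hT1, h]))
      have h2 := c2.sum x hx T2 (by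
        intro v hv
        by_contra h
        exact hv (by simp [hT2, h]))
      have h3 : ∑ v ∈ T1.disjSum T2, wt v * ord v x = 0 := by
        rw [Finset.sum_disjSum]
        have h4 : ∑ v ∈ T1, wt (Sum.inl v) * ord (Sum.inl v) x = ∑ v ∈ T1, c1.wt v * c1.ord v x :=
          rfl
        have h5 : ∑ v ∈ T2, wt (Sum.inr v) * ord (Sum.inr v) x = ∑ v ∈ T2, c2.wt v * c2.ord v x :=
          rfl
        rw [h4, h5, h1, h2]
        ring
      have hST : S ⊆ T1.disjSum T2 := by
        rintro (v | v) hv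
        · rw [Finset.inl_mem_disjSum]
          simp [hT1, hv]
        · rw [Finset.inr_mem_disjSum]
          simp [hT2, hv]
      rw [← Finset.sum_sdiff hST] at h3
      have h6 : 0 ≤ ∑ v ∈ T1.disjSum T2 \ S, wt v * ord v x :=
        Finset.sum_nonneg fun v hv => mul_nonneg (zero_le_one.trans (hwt1 v))
          (hS v (Finset.mem_sdiff.mp hv).2)
      linarith
    const := by
      intro x hx h
      exact hconst x hx (fun v => h (Sum.inl v)) (fun v => h (Sum.inr v))
    D := D
    loss := loss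
    loss_nonneg := by
      rintro (v | v)
      · have := c1.dl_nonneg v
        simp only [loss, Sum.elim_inl]
        linarith
      · have := c2.dl_nonneg v
        simp only [loss, Sum.elim_inr]
        linarith
    lossS := lossS
    loss_supp := by
      rintro (v | v) hv
      · simp only [lossS, Finset.inl_mem_disjSum, Set.Finite.mem_toFinset, Set.mem_ofPred_eq,
          not_not] at hv
        simp [loss, hv]
      · simp only [lossS, Finset.inr_mem_disjSum, Set.Finite.mem_toFinset, Set.mem_ofPred_eq,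
          not_not] at hv
        simp [loss, hv]
    lossT := ∑ v ∈ lossS, wt v * loss v
    loss_sum := le_rfl
    D_ord := by
      rintro (v | v) x j m hx h1 h2
      · exact (hdl1 v).1 x j m hx h1 h2
      · exact (hdl2 v).1 x j m hx h1 h2
    D_ord' := by
      rintro (v | v) x j hx h1 h2
      · exact (hdl1 v).2 x j hx h1 h2
      · exact (hdl2 v).2 x j hx h1 h2 }

end Gen

section Discr

variable {F K : Type*} [Field F] [Field K] [Algebra F K]

lemma discr_eq_fun (B : PowerBasis F K) {n : ℕ} (h : B.dim = n) :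
    Algebra.discr F B.basis = Algebra.discr F (fun i : Fin n => B.gen ^ (i : ℕ)) := by
  subst h
  rw [← B.coe_basis]

lemma discr_scale (x : K) (β : F) (n : ℕ) :
    Algebra.discr F (fun i : Fin n => (algebraMap F K β * x) ^ (i : ℕ)) =
      β ^ (n * (n - 1)) * Algebra.discr F (fun i : Fin n => x ^ (i : ℕ)) := by
  have h := Algebra.discr_of_matrix_vecMul (A := F) (fun i : Fin n => x ^ (i : ℕ))
    (Matrix.diagonal fun i : Fin n => β ^ (i : ℕ))
  rw [Matrix.det_diagonal, Finset.prod_pow_eq_pow_sum, ← pow_mul,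
    Fin.sum_univ_eq_sum_range (fun i => i) n, Finset.sum_range_id_mul_two] at h
  rw [← h]
  congr 1
  funext i
  rw [Matrix.diagonal_map (map_zero _), Matrix.vecMul_diagonal, mul_pow, map_pow]
  ring

end Discr

/-- An element with a monic equation is integral. -/
lemma integ_of_eq {R F K : Type*} [CommRing R] [Field F] [Algebra R F] [Field K] [Algebra F K]
    [Nontrivial R] (c : ℕ → R) (x : K) (n : ℕ)
    (h : x ^ n + ∑ j ∈ Finset.range n, algebraMap F K (algebraMap R F (c j)) * x ^ j = 0) :
    Integ R F x := by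
  refine ⟨X ^ n + ∑ i : Fin n, C (c i) * X ^ (i : ℕ),
    monic_X_pow_add (degree_sum_fin_lt fun i : Fin n => c i), ?_⟩
  rw [eval₂_add, eval₂_X_pow, eval₂_finsetSum, ← h, Finset.sum_range]
  congr 1
  refine Finset.sum_congr rfl fun i _ => ?_
  rw [eval₂_mul, eval₂_C, eval₂_X_pow]
  rfl

/-- The discriminant of an integral power basis is in the base ring. -/
lemma discr_mem {R F K : Type*} [CommRing R] [IsDomain R] [IsPrincipalIdealRing R] [Field F]
    [Algebra R F] [IsFractionRing R F] [Field K] [Algebra F K] [FiniteDimensional F K]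
    (B : PowerBasis F K) (hB : Integ R F B.gen) :
    ∃ r : R, algebraMap R F r = Algebra.discr F B.basis := by
  let _ : Algebra R K := ((algebraMap F K).comp (algebraMap R F)).toAlgebra
  have : IsScalarTower R F K := IsScalarTower.of_algebraMap_eq (fun _ => rfl)
  have hB' : IsIntegral R B.gen := hB
  have hdint : IsIntegral R (Algebra.discr F B.basis) := by
    refine Algebra.discr_isIntegral F fun i => ?_
    rw [B.basis_eq_pow]
    exact hB'.pow _
  exact IsIntegrallyClosed.isIntegral_iff.mp hdint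

/-- A power basis with a given generator. -/
lemma exists_pb {F K : Type*} [Field F] [Field K] [Algebra F K] [FiniteDimensional F K] (u : K)
    (hgen : IntermediateField.adjoin F {u} = ⊤) :
    ∃ B : PowerBasis F K, B.gen = u ∧ B.dim = Module.finrank F K := by
  have hint : IsIntegral F u := IsIntegral.of_finite F u
  have h2 : Algebra.adjoin F {u} = ⊤ := by
    rw [← IntermediateField.adjoin_simple_toSubalgebra_of_isAlgebraic hint.isAlgebraic, hgen,
      IntermediateField.top_toSubalgebra]
  exact ⟨PowerBasis.ofAdjoinEqTop' hint h2, PowerBasis.ofAdjoinEqTop'_gen hint h2,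
    (PowerBasis.finrank _).symm⟩

lemma adjoin_smul_gen {F K : Type*} [Field F] [Field K] [Algebra F K] (u : K) (α : F) (hα : α ≠ 0)
    (hgen : IntermediateField.adjoin F {u} = ⊤) :
    IntermediateField.adjoin F {algebraMap F K α * u} = ⊤ := by
  rw [eq_top_iff, ← hgen, IntermediateField.adjoin_le_iff]
  intro y hy
  rw [Set.mem_singleton_iff] at hy
  rw [hy, SetLike.mem_coe]
  have h1 := mul_mem (IntermediateField.algebraMap_mem
    (IntermediateField.adjoin F {algebraMap F K α * u}) α⁻¹)
    (IntermediateField.mem_adjoin_simple_self F (algebraMap F K α * u))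
  rw [← mul_assoc, ← map_mul, inv_mul_cancel₀ hα, map_one, one_mul] at h1
  exact h1

lemma final_ineq (n : ℕ) (a B x : ℤ) (h0 : 0 ≤ a) (h1 : a ≤ B) :
    2 * (2 * (n : ℤ) * ((n * (n - 1) : ℕ) * (a + B) + x)) + 2 * -(2 * n * x) ≤
      8 * (n : ℤ) ^ 3 * B := by
  have h2 : ((n * (n - 1) : ℕ) : ℤ) ≤ (n : ℤ) * n := by
    have : n * (n - 1) ≤ n * n := Nat.mul_le_mul_left n (Nat.sub_le n 1)
    exact_mod_cast this
  have h3 : (0 : ℤ) ≤ ((n * (n - 1) : ℕ) : ℤ) := Int.natCast_nonneg _
  have h4 : (0 : ℤ) ≤ n := Int.natCast_nonneg _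
  calc 2 * (2 * (n : ℤ) * ((n * (n - 1) : ℕ) * (a + B) + x)) + 2 * -(2 * n * x) =
        4 * (n : ℤ) * (((n * (n - 1) : ℕ) : ℤ) * (a + B)) := by ring
    _ ≤ 4 * (n : ℤ) * ((n * n) * (B + B)) := by
        apply mul_le_mul_of_nonneg_left _ (by positivity)
        apply mul_le_mul h2 (by linarith) (by linarith) (by positivity)
    _ = 8 * (n : ℤ) ^ 3 * B := by ring

/-- SB-LB -/
theorem t_LB (hDEN : S_DEN.{u, w}) (hCH : S_CH.{u, w}) (hEF : S_EF.{u, w}) : S_LB.{u, w} := by
  classical
  intro p _ k K _ _ _ _ _ _ _ _ _ _ u hgen hu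
  set n := Module.finrank (RatFunc k) K with hn
  have hn1 : 1 ≤ n := Module.finrank_pos
  have hu0 : u ≠ 0 := by
    have := hu 0
    rwa [map_zero] at this
  -- constants
  have halg : ∀ x : K, IsAlgebraic k x → ∃ c : k, algebraMap k K c = x := by
    intro x hx
    have := IntermediateField.isAlgebraic_adjoin_simple hx.isIntegral
    have h1 := IntermediateField.eq_bot_of_isAlgClosed_of_isAlgebraic
      (IntermediateField.adjoin k {x})
    have h2 := IntermediateField.mem_adjoin_simple_self k x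
    rw [h1, IntermediateField.mem_bot] at h2
    exact h2
  have hk : ∀ c : k, ∃ c' : k, c' ^ p = c := fun c =>
    IsAlgClosed.exists_pow_nat_eq c (Fact.out : p.Prime).pos
  have hinf : Infinite k := IsAlgClosed.instInfinite
  -- the derivation
  obtain ⟨D, hD'⟩ := Pool.Agent.TH951.P.exists_ext_der k (RatFunc k) K (ratDer k)
  have hD : ∀ x : RatFunc k, D (algebraMap (RatFunc k) K x) =
      algebraMap (RatFunc k) K (ratD k x) := hD'
  set d : Derivation ℤ K K := D.restrictScalars ℤ with hd
  have hdD : ∀ x, d x = D x := fun _ => rfl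
  obtain ⟨q1⟩ := hCH k[X] (RatFunc k) K d
  obtain ⟨q2⟩ := hCH (InfRing k) (RatFunc k) K d
  set T1 := (q1.fin u hu0).toFinset with hT1
  set T2 := (q2.fin u hu0).toFinset with hT2
  have hT1u : ∀ v, v ∉ T1 → q1.ord v u = 0 := by
    intro v hv
    by_contra h
    exact hv (by simp [hT1, h])
  have hT2u : ∀ v, v ∉ T2 → q2.ord v u = 0 := by
    intro v hv
    by_contra h
    exact hv (by simp [hT2, h])
  obtain ⟨P, hP1, hPn, hP0⟩ := hEF k K d q1 q2 u hgen hu T1 (fun v hv => (hT1u v hv).ge) T2
    (fun v hv => (hT2u v hv).ge)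
  rw [← hn] at hPn hP0
  set B := ∑ v ∈ T1, (algebraMap k[X] (RatFunc k) (q1.g v)).intDegree * max 0 (-q1.ord v u) +
    ∑ v ∈ T2, (-(algebraMap (InfRing k) (RatFunc k) (q2.g v)).intDegree) *
      max 0 (-q2.ord v u) with hB
  have hB0 : 0 ≤ B := le_trans (Int.natCast_nonneg _) (hP1 0)
  set e := B.toNat with he
  have heB : (e : ℤ) = B := Int.toNat_of_nonneg hB0
  have hPe : ∀ j, (P j).natDegree ≤ e := by
    intro j
    have := hP1 j
    omega
  -- abbreviations
  let ι : k[X] → RatFunc k := algebraMap k[X] (RatFunc k)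
  have hX0 : ι X ≠ 0 := by
    show algebraMap k[X] (RatFunc k) X ≠ 0
    rw [Ne, map_eq_zero_iff _ (RatFunc.algebraMap_injective k)]
    exact X_ne_zero
  have ha0 : ι (P n) ≠ 0 := by
    show algebraMap k[X] (RatFunc k) (P n) ≠ 0
    rw [Ne, map_eq_zero_iff _ (RatFunc.algebraMap_injective k)]
    exact hPn
  have hsum : ι (P n) • u ^ n + ∑ j ∈ Finset.range n, ι (P j) • u ^ j = 0 := by
    rw [Finset.sum_range_succ] at hP0
    simp only [Algebra.smul_def]
    rw [add_comm]
    exact hP0
  simp only [Algebra.smul_def] at hsum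
  -- the two integral generators
  set α1 : RatFunc k := ι (P n) with hα1
  set α2 : RatFunc k := (ι X ^ e)⁻¹ with hα2
  have hα20 : α2 ≠ 0 := inv_ne_zero (pow_ne_zero _ hX0)
  have hint1 : Integ k[X] (RatFunc k) (algebraMap (RatFunc k) K α1 * u) := by
    refine integ_of_eq (fun j => P j * P n ^ (n - 1 - j)) _ n ?_
    have h1 : ∑ j ∈ Finset.range n, algebraMap (RatFunc k) K (algebraMap k[X] (RatFunc k)
        (P j * P n ^ (n - 1 - j))) * (algebraMap (RatFunc k) K α1 * u) ^ j =
        algebraMap (RatFunc k) K α1 ^ (n - 1) *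
          ∑ j ∈ Finset.range n, algebraMap (RatFunc k) K (ι (P j)) * u ^ j := by
      rw [Finset.mul_sum]
      refine Finset.sum_congr rfl fun j hj => ?_
      rw [Finset.mem_range] at hj
      rw [map_mul, map_mul, map_pow, map_pow, mul_pow]
      have h2 : algebraMap (RatFunc k) K (algebraMap k[X] (RatFunc k) (P n)) ^ (n - 1 - j) *
          algebraMap (RatFunc k) K α1 ^ j = algebraMap (RatFunc k) K α1 ^ (n - 1) := by
        show algebraMap (RatFunc k) K α1 ^ (n - 1 - j) * algebraMap (RatFunc k) K α1 ^ j = _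
        rw [← pow_add]
        congr 1
        omega
      linear_combination (algebraMap (RatFunc k) K (ι (P j)) * u ^ j) * h2
    have h3 : (algebraMap (RatFunc k) K α1 * u) ^ n = algebraMap (RatFunc k) K α1 ^ (n - 1) *
        (algebraMap (RatFunc k) K α1 * u ^ n) := by
      obtain ⟨m, hm⟩ : ∃ m, n = m + 1 := ⟨n - 1, by omega⟩
      rw [hm, Nat.add_sub_cancel, mul_pow]
      ring
    rw [h1, h3, ← mul_add, hsum, mul_zero]
  have hint2 : Integ (InfRing k) (RatFunc k) (algebraMap (RatFunc k) K α2 * u) := by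
    have hmem : ∀ j, j < n → ι (P j) / (ι (P n) * ι X ^ (e * (n - j))) ∈ InfRing k := by
      intro j hj
      rw [mem_infRing]
      by_cases hPj : P j = 0
      · left
        show algebraMap k[X] (RatFunc k) (P j) / _ = 0
        rw [hPj, map_zero, zero_div]
      · right
        have hPj' : ι (P j) ≠ 0 := by
          show algebraMap k[X] (RatFunc k) (P j) ≠ 0
          rw [Ne, map_eq_zero_iff _ (RatFunc.algebraMap_injective k)]
          exact hPj
        have hden : ι (P n) * ι X ^ (e * (n - j)) ≠ 0 := mul_ne_zero ha0 (pow_ne_zero _ hX0)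
        rw [div_eq_mul_inv, RatFunc.intDegree_mul hPj' (inv_ne_zero hden), RatFunc.intDegree_inv,
          RatFunc.intDegree_mul ha0 (pow_ne_zero _ hX0), addFn_pow (addFn_poly k) hX0]
        show (algebraMap k[X] (RatFunc k) (P j)).intDegree +
          -((algebraMap k[X] (RatFunc k) (P n)).intDegree +
            ((e * (n - j) : ℕ) : ℤ) * (algebraMap k[X] (RatFunc k) X).intDegree) ≤ 0
        rw [RatFunc.intDegree_polynomial, RatFunc.intDegree_polynomial,
          RatFunc.intDegree_polynomial, natDegree_X]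
        have h1 := hPe j
        have h2 : e * 1 ≤ e * (n - j) := Nat.mul_le_mul_left e (by omega)
        have h3 : (((e * (n - j) : ℕ) : ℤ)) ≥ e := by exact_mod_cast (by omega : e ≤ e * (n - j))
        have h4 : ((P j).natDegree : ℤ) ≤ e := by exact_mod_cast h1
        have h5 : (0 : ℤ) ≤ (P n).natDegree := Int.natCast_nonneg _
        push_cast at h3 ⊢
        linarith
    refine integ_of_eq (fun j => if h : j < n then ⟨_, hmem j h⟩ else 0) _ n ?_
    have h1 : ∑ j ∈ Finset.range n, algebraMap (RatFunc k) K (algebraMap (InfRing k) (RatFunc k)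
        (if h : j < n then ⟨_, hmem j h⟩ else 0)) * (algebraMap (RatFunc k) K α2 * u) ^ j =
        algebraMap (RatFunc k) K (α1 * ι X ^ (e * n))⁻¹ *
          ∑ j ∈ Finset.range n, algebraMap (RatFunc k) K (ι (P j)) * u ^ j := by
      rw [Finset.mul_sum]
      refine Finset.sum_congr rfl fun j hj => ?_
      rw [Finset.mem_range] at hj
      rw [dif_pos hj, ValuationSubring.algebraMap_apply, mul_pow]
      show algebraMap (RatFunc k) K (ι (P j) / (ι (P n) * ι X ^ (e * (n - j)))) *
        (algebraMap (RatFunc k) K α2 ^ j * u ^ j) = _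
      have h2 : ι (P j) / (ι (P n) * ι X ^ (e * (n - j))) * α2 ^ j =
          (α1 * ι X ^ (e * n))⁻¹ * ι (P j) := by
        rw [hα2, hα1]
        have h3 : ι X ^ (e * n) = ι X ^ (e * (n - j)) * (ι X ^ e) ^ j := by
          rw [← pow_mul, ← pow_add, ← mul_add]
          congr 2
          omega
        rw [h3, div_eq_mul_inv, inv_pow]
        ring
      have h4 := congrArg (algebraMap (RatFunc k) K) h2
      rw [map_mul, map_mul, map_pow] at h4
      linear_combination u ^ j * h4
    have h3 : (algebraMap (RatFunc k) K α2 * u) ^ n =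
        algebraMap (RatFunc k) K (α1 * ι X ^ (e * n))⁻¹ *
        (algebraMap (RatFunc k) K α1 * u ^ n) := by
      rw [mul_pow, ← mul_assoc, ← map_mul, ← map_pow]
      congr 2
      rw [hα2, inv_pow, ← pow_mul, mul_inv]
      field_simp
    rw [h1, h3, ← mul_add, hsum, mul_zero]
  -- power bases
  obtain ⟨B1, hB1g, hB1d⟩ := exists_pb _ (adjoin_smul_gen u α1 ha0 hgen)
  obtain ⟨B2, hB2g, hB2d⟩ := exists_pb _ (adjoin_smul_gen u α2 hα20 hgen)
  rw [← hn] at hB1d hB2d
  have hI1 : Integ k[X] (RatFunc k) B1.gen := by rw [hB1g]; exact hint1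
  have hI2 : Integ (InfRing k) (RatFunc k) B2.gen := by rw [hB2g]; exact hint2
  obtain ⟨r1, hr1⟩ := discr_mem B1 hI1
  obtain ⟨r2, hr2⟩ := discr_mem B2 hI2
  have hne1 : Algebra.discr (RatFunc k) B1.basis ≠ 0 := Algebra.discr_not_zero_of_basis _ _
  have hne2 : Algebra.discr (RatFunc k) B2.basis ≠ 0 := Algebra.discr_not_zero_of_basis _ _
  have hr10 : r1 ≠ 0 := by
    rintro rfl
    exact hne1 (by rw [← hr1, map_zero])
  have hr20 : r2 ≠ 0 := by
    rintro rfl
    exact hne2 (by rw [← hr2, map_zero])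
  -- denominators
  have hden1 : ∀ s : K, Integ k[X] (RatFunc k) s → Integ k[X] (RatFunc k)
      (algebraMap (RatFunc k) K (algebraMap k[X] (RatFunc k) (r1 ^ 2)) * d s) := by
    intro s hs
    have h1 := hDEN k[X] (RatFunc k) K d (by
      intro r
      refine ⟨derivative r, ?_⟩
      rw [hdD, hD, ratD_alg]) B1 hI1 s hs
    rw [map_pow, map_pow, hr1]
    exact h1
  have hden2 : ∀ s : K, Integ (InfRing k) (RatFunc k) s → Integ (InfRing k) (RatFunc k)
      (algebraMap (RatFunc k) K (algebraMap (InfRing k) (RatFunc k) (r2 ^ 2)) * d s) := by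
    intro s hs
    have h1 := hDEN (InfRing k) (RatFunc k) K d (by
      intro r
      refine ⟨⟨_, ratD_inf k r⟩, ?_⟩
      rw [hdD, hD]
      rfl) B2 hI2 s hs
    rw [map_pow, map_pow, hr2]
    exact h1
  let c1 := toCD q1 (fun x => x.intDegree) (addFn_poly k) (pos_poly k) (r1 ^ 2)
    (pow_ne_zero 2 hr10) hden1
  let c2 := toCD q2 (fun x => -x.intDegree) (addFn_inf k) (pos_inf k) (r2 ^ 2)
    (pow_ne_zero 2 hr20) hden2
  let Q := mkPl k K D c1 c2 halg
  refine ⟨Q, fun x hx => Pool.Agent.TH951.P.ker_pow p hk D hD x hx, ?_⟩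
  intro S hS
  -- the sum of the poles
  have hpole : ∀ v : Q.Pl, Q.pole v u = max 0 (- Q.ord v u) := fun v =>
    PlaceData.pole_of_ne hu0
  let f : q1.Pl ⊕ q2.Pl → ℤ := Sum.elim
    (fun v => (algebraMap k[X] (RatFunc k) (q1.g v)).intDegree * max 0 (-q1.ord v u))
    (fun v => (-(algebraMap (InfRing k) (RatFunc k) (q2.g v)).intDegree) * max 0 (-q2.ord v u))
  have hf : ∀ v : Q.Pl, Q.wt v * Q.pole v u = f v := by
    intro v
    rw [hpole]
    rcases v with v | v
    · rfl
    · rfl
  let T : Finset Q.Pl := T1.disjSum T2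
  have hBsum : ∑ v ∈ T, Q.wt v * Q.pole v u = B := by
    rw [Finset.sum_congr rfl fun v _ => hf v]
    show ∑ v ∈ (T1.disjSum T2 : Finset (q1.Pl ⊕ q2.Pl)), f v = B
    rw [Finset.sum_disjSum]
    rfl
  have hSu : ∀ v : Q.Pl, v ∉ T → Q.pole v u = 0 := by
    intro v hv
    rw [hpole]
    have h1 : Q.ord v u = 0 := by
      rcases v with v | v
      · exact hT1u v fun h => hv (Finset.inl_mem_disjSum.mpr h)
      · exact hT2u v fun h => hv (Finset.inr_mem_disjSum.mpr h)
    rw [h1]
    simp
  have hsumS : ∑ v ∈ S, Q.wt v * Q.pole v u = B := by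
    rw [← hBsum]
    have h1 : ∑ v ∈ S, Q.wt v * Q.pole v u = ∑ v ∈ S ∪ T, Q.wt v * Q.pole v u := by
      apply Finset.sum_subset Finset.subset_union_left
      intro v _ hv
      rw [hS v hv, mul_zero]
    have h2 : ∑ v ∈ T, Q.wt v * Q.pole v u = ∑ v ∈ S ∪ T, Q.wt v * Q.pole v u := by
      apply Finset.sum_subset Finset.subset_union_right
      intro v _ hv
      rw [hSu v hv, mul_zero]
    rw [h1, h2]
  rw [hsumS]
  -- the total loss
  have hloss : Q.lossT = 2 * (∑ v ∈ c1.dl_fin.toFinset, c1.wt v * c1.dl v) +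
      2 * (∑ v ∈ c2.dl_fin.toFinset, c2.wt v * c2.dl v) := by
    show ∑ v ∈ c1.dl_fin.toFinset.disjSum c2.dl_fin.toFinset,
      (Sum.elim c1.wt c2.wt v) * (Sum.elim (fun v => 2 * c1.dl v) (fun v => 2 * c2.dl v) v) = _
    rw [Finset.sum_disjSum, Finset.mul_sum, Finset.mul_sum]
    congr 1
    · refine Finset.sum_congr rfl fun v _ => ?_
      simp only [Sum.elim_inl]
      ring
    · refine Finset.sum_congr rfl fun v _ => ?_
      simp only [Sum.elim_inr]
      ring
  set Δ1 := Algebra.discr (RatFunc k) B1.basis with hΔ1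
  set Δ2 := Algebra.discr (RatFunc k) B2.basis with hΔ2
  have hs1 : ∑ v ∈ c1.dl_fin.toFinset, c1.wt v * c1.dl v = 2 * n * Δ1.intDegree := by
    have h0 : algebraMap (RatFunc k) K (algebraMap k[X] (RatFunc k) (r1 ^ 2)) ≠ 0 := by
      rw [map_pow, hr1, _root_.map_ne_zero]
      exact pow_ne_zero 2 hne1
    have h1 := c1.sum _ h0 c1.dl_fin.toFinset (by
      intro v hv
      by_contra h
      exact hv ((Set.Finite.mem_toFinset _).mpr h))
    refine h1.trans ?_
    rw [Algebra.norm_algebraMap, ← hn, map_pow, hr1, ← pow_mul,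
      addFn_pow (addFn_poly k) hne1]
    push_cast
    ring
  have hs2 : ∑ v ∈ c2.dl_fin.toFinset, c2.wt v * c2.dl v = -(2 * n * Δ2.intDegree) := by
    have h0 : algebraMap (RatFunc k) K (algebraMap (InfRing k) (RatFunc k) (r2 ^ 2)) ≠ 0 := by
      rw [map_pow, hr2, _root_.map_ne_zero]
      exact pow_ne_zero 2 hne2
    have h1 := c2.sum _ h0 c2.dl_fin.toFinset (by
      intro v hv
      by_contra h
      exact hv ((Set.Finite.mem_toFinset _).mpr h))
    refine h1.trans ?_
    rw [Algebra.norm_algebraMap, ← hn, map_pow, hr2, ← pow_mul]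
    show -(Δ2 ^ (2 * n)).intDegree = _
    rw [addFn_pow (addFn_poly k) hne2]
    push_cast
    ring
  -- comparison of the discriminants
  set β : RatFunc k := α1 * ι X ^ e with hβ
  have hβ0 : β ≠ 0 := mul_ne_zero ha0 (pow_ne_zero _ hX0)
  have hβd : β.intDegree = (P n).natDegree + e := by
    rw [hβ, RatFunc.intDegree_mul ha0 (pow_ne_zero _ hX0), addFn_pow (addFn_poly k) hX0]
    show (algebraMap k[X] (RatFunc k) (P n)).intDegree +
      (e : ℤ) * (algebraMap k[X] (RatFunc k) X).intDegree = _
    rw [RatFunc.intDegree_polynomial, RatFunc.intDegree_polynomial, natDegree_X]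
    push_cast
    ring
  have hgen12 : B1.gen = algebraMap (RatFunc k) K β * B2.gen := by
    rw [hB1g, hB2g, ← mul_assoc, ← map_mul, hβ, hα2]
    congr 2
    rw [mul_assoc, mul_inv_cancel₀ (pow_ne_zero _ hX0), mul_one]
  have hΔ : Δ1 = β ^ (n * (n - 1)) * Δ2 := by
    rw [hΔ1, hΔ2, discr_eq_fun B1 hB1d, discr_eq_fun B2 hB2d, hgen12]
    exact discr_scale _ _ _
  have hΔd : Δ1.intDegree = (n * (n - 1) : ℕ) * ((P n).natDegree + e : ℤ) + Δ2.intDegree := by
    rw [hΔ, RatFunc.intDegree_mul (pow_ne_zero _ hβ0) hne2, addFn_pow (addFn_poly k) hβ0, hβd]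
  rw [hloss, hs1, hs2, hΔd, heB]
  exact final_ineq n _ B _ (Int.natCast_nonneg _) (hP1 n)

end Pool.Agent.Y93.SB
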