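import Pool.Agent.Y706.SB.Stm
import Pool.Agent.TH951.P.FF

/-!
# A separating variable of small degree
-/

set_option autoImplicit false

namespace Pool.Agent.Y93.SB

open IntermediateField Pool.Agent.Y706.SB Pool.Agent.TH951.W.UB

universe u

/-- The kernel of a derivation. -/
def kerF {E L : Type*} [Field E] [Field L] [Algebra E L] (D : Derivation E L L) :
    IntermediateField E L where
  carrier := {x | D x = 0}
  mul_mem' := by
    intro a b ha hb
    show D (a * b) = 0
    rw [Derivation.leibniz, show D a = 0 from ha, show D b = 0 from hb, smul_zero, smul_zero,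
      add_zero]
  add_mem' := by
    intro a b ha hb
    show D (a + b) = 0
    rw [map_add, show D a = 0 from ha, show D b = 0 from hb, add_zero]
  algebraMap_mem' := fun c => D.map_algebraMap c
  inv_mem' := by
    intro a ha
    show D a⁻¹ = 0
    rw [Derivation.leibniz_inv, show D a = 0 from ha, smul_zero]

theorem mem_kerF {E L : Type*} [Field E] [Field L] [Algebra E L] (D : Derivation E L L) (x : L) :
    x ∈ kerF D ↔ D x = 0 := Iff.rfl

/-- A derivation which vanishes at a separating variable vanishes. -/
theorem der_eq_zero {E L : Type*} [Field E] [Field L] [Algebra E L] {t₀ : L}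
    [Algebra.IsSeparable (IntermediateField.adjoin E {t₀}) L] (δ : Derivation E L L)
    (h : δ t₀ = 0) : δ = 0 := by
  have hle : IntermediateField.adjoin E {t₀} ≤ kerF δ := by
    rw [IntermediateField.adjoin_le_iff]
    intro y hy
    rw [Set.mem_singleton_iff] at hy
    rw [hy]
    exact h
  have hz : ∀ c : IntermediateField.adjoin E {t₀}, δ (c : L) = 0 := fun c => hle c.2
  have : Algebra.FormallyUnramified (IntermediateField.adjoin E {t₀}) L :=
    Algebra.FormallyUnramified.of_isSeparable _ L
  let δ' : Derivation (IntermediateField.adjoin E {t₀}) L L :=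
    Derivation.mk' { toFun := δ
                     map_add' := fun a b => map_add δ a b
                     map_smul' := by
                      intro c x
                      rw [Algebra.smul_def, Derivation.leibniz]
                      have h1 : δ (algebraMap (IntermediateField.adjoin E {t₀}) L c) = 0 := hz c
                      rw [h1, smul_zero, add_zero, smul_eq_mul, RingHom.id_apply,
                        Algebra.smul_def] } (fun a b => δ.leibniz a b)
  have h1 : ∀ x, δ' x = 0 := by
    intro x
    rw [← Derivation.liftKaehlerDifferential_comp_D δ' x]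
    have h2 : KaehlerDifferential.D (IntermediateField.adjoin E {t₀}) L x = 0 :=
      Subsingleton.elim _ _
    rw [h2, map_zero]
  ext x
  exact h1 x

/-- If `t` is not a `p`-th power then `L` is separable over `E(t)`. -/
theorem sep_of_not_pow (p : ℕ) [Fact p.Prime] (E L : Type u) [Field E] [IsAlgClosed E] [Field L]
    [Algebra E L] [CharP L p] (t : L) (ht : Transcendental E t)
    [FiniteDimensional (IntermediateField.adjoin E {t}) L] (hno : ∀ y : L, y ^ p ≠ t) :
    Algebra.IsSeparable (IntermediateField.adjoin E {t}) L := by
  have hess : Algebra.EssFiniteType E (IntermediateField.adjoin E {t}) := by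
    rw [IntermediateField.essFiniteType_iff]
    exact IntermediateField.fg_adjoin_of_finite (Set.finite_singleton t)
  have hessL : Algebra.EssFiniteType E L :=
    Algebra.EssFiniteType.comp E (IntermediateField.adjoin E {t}) L
  have hFG : (⊤ : IntermediateField E L).FG := by
    rw [IntermediateField.fg_top_iff]
    exact hessL
  obtain ⟨s, hs, hsep⟩ := exists_isTranscendenceBasis_and_isSeparable_of_perfectField E L
  have hbasis : IsTranscendenceBasis E (fun _ : PUnit.{u + 1} => t) := by
    rw [isTranscendenceBasis_iff_algebraicIndependent_isAlgebraic]
    refine ⟨algebraicIndependent_unique_type_iff.mpr ht, ?_⟩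
    rw [← IntermediateField.isAlgebraic_adjoin_iff_top, Set.range_const]
    infer_instance
  have hcard : s.card = 1 := by
    have h1 := hs.cardinalMk_eq hbasis
    simpa using h1
  obtain ⟨t₀, rfl⟩ := Finset.card_eq_one.mp hcard
  have ht₀ : Transcendental E t₀ := by
    have h1 := hs.1.transcendental ⟨t₀, Finset.mem_singleton_self t₀⟩
    exact h1
  rw [Finset.coe_singleton] at hsep
  obtain ⟨Q, hQ⟩ := Pool.Agent.TH951.P.exists_pd_sep p E L t₀ ht₀ hFG
  have hDt : Q.D t ≠ 0 := by
    intro h
    obtain ⟨y, hy⟩ := hQ t h
    exact hno y hy
  -- every derivation vanishing at `t` vanishes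
  have hker : ∀ δ : Derivation E L L, δ t = 0 → δ = 0 := by
    intro δ hδ
    apply der_eq_zero (t₀ := t₀) δ
    have h1 : (Q.D t₀ • δ - δ t₀ • Q.D : Derivation E L L) = 0 := by
      apply der_eq_zero (t₀ := t₀)
      rw [Derivation.sub_apply, Derivation.smul_apply, Derivation.smul_apply, smul_eq_mul,
        smul_eq_mul]
      ring
    have h2 := congrArg (fun D : Derivation E L L => D t) h1
    simp only [Derivation.sub_apply, Derivation.smul_apply, smul_eq_mul, hδ,
      Derivation.zero_apply, mul_zero, zero_sub, neg_eq_zero, mul_eq_zero] at h2
    exact h2.resolve_right hDt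
  have hunr : Algebra.FormallyUnramified (IntermediateField.adjoin E {t}) L := by
    constructor
    refine ⟨fun a b => ?_⟩
    have hzero : ∀ ω : Ω[L⁄(IntermediateField.adjoin E {t})], ω = 0 := by
      intro ω
      rw [← Module.forall_dual_apply_eq_zero_iff L]
      intro f
      have h1 : f = 0 := by
        apply Derivation.liftKaehlerDifferential_unique
        have h2 := hker ((f.compDer (KaehlerDifferential.D _ L)).restrictScalars E) (by
          show (f.compDer (KaehlerDifferential.D (IntermediateField.adjoin E {t}) L)) t = 0
          exact (f.compDer (KaehlerDifferential.D (IntermediateField.adjoin E {t}) L)).map_algebraMap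
            ⟨t, IntermediateField.mem_adjoin_simple_self E t⟩)
        ext x
        have h3 := congrArg (fun D : Derivation E L L => D x) h2
        simpa using h3
      rw [h1, LinearMap.zero_apply]
    rw [hzero a, hzero b]
  exact Algebra.FormallyUnramified.isSeparable _ L

/-- `s` is not a rational function of `s ^ p`. -/
theorem not_mem_pow (p : ℕ) [Fact p.Prime] {E L : Type*} [Field E] [Field L] [Algebra E L]
    [CharP L p] {s : L} (hs : Transcendental E s) : s ∉ IntermediateField.adjoin E {s ^ p} := by
  intro hmem
  let σ : RatFunc E ≃ₐ[E] IntermediateField.adjoin E {s} := RatFunc.algEquivOfTranscendental s hs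
  let φ : RatFunc E →ₐ[E] L := (IntermediateField.adjoin E {s}).val.comp (σ : RatFunc E →ₐ[E] _)
  have hφX : φ RatFunc.X = s := by
    show ((σ RatFunc.X : IntermediateField.adjoin E {s}) : L) = s
    rw [RatFunc.algEquivOfTranscendental_X]
  have hCE : CharP (RatFunc E) p := (RingHom.charP_iff (φ : RatFunc E →+* L)
    (φ : RatFunc E →+* L).injective p).mpr inferInstance
  have h1 : IntermediateField.adjoin E {s ^ p} =
      (IntermediateField.adjoin E {(RatFunc.X : RatFunc E) ^ p}).map φ := by
    rw [IntermediateField.adjoin_map, Set.image_singleton, map_pow, hφX]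
  rw [h1] at hmem
  obtain ⟨y, hy, hyX⟩ := hmem
  have h2 : y = RatFunc.X := (φ : RatFunc E →+* L).injective (hyX.trans hφX.symm)
  rw [h2] at hy
  have h3 : IntermediateField.adjoin E {(RatFunc.X : RatFunc E) ^ p} ≤ kerF (ratDer E) := by
    rw [IntermediateField.adjoin_le_iff]
    intro z hz
    rw [Set.mem_singleton_iff] at hz
    rw [hz]
    show ratDer E ((RatFunc.X : RatFunc E) ^ p) = 0
    rw [Derivation.leibniz_pow, nsmul_eq_mul, CharP.cast_eq_zero, zero_mul]
  have h4 : ratDer E (RatFunc.X : RatFunc E) = 0 := h3 hy
  have h5 : ratDer E (RatFunc.X : RatFunc E) = 1 := by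
    show ratD E RatFunc.X = 1
    have h6 : (RatFunc.X : RatFunc E) = algebraMap (Polynomial E) (RatFunc E) Polynomial.X := by
      rw [RatFunc.algebraMap_X]
    rw [h6, ratD_alg, Polynomial.derivative_X, map_one]
  rw [h4] at h5
  exact zero_ne_one h5

/-- SB-SEP -/
theorem t_SEP : S_SEP := by
  intro p _ E L _ _ _ _ _ t ht hfin
  have main : ∀ (n : ℕ) (t : L), Transcendental E t →
      FiniteDimensional (IntermediateField.adjoin E {t}) L →
      Module.finrank (IntermediateField.adjoin E {t}) L = n →
      ∃ s : L, Transcendental E s ∧ Algebra.IsSeparable (IntermediateField.adjoin E {s}) L ∧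
        FiniteDimensional (IntermediateField.adjoin E {s}) L ∧
        Module.finrank (IntermediateField.adjoin E {s}) L ≤ n := by
    intro n
    induction n using Nat.strong_induction_on with
    | _ n ih =>
      intro t ht hfin hn
      by_cases hp : ∃ s : L, s ^ p = t
      · obtain ⟨s, rfl⟩ := hp
        have hs : Transcendental E s := fun h => ht (h.pow p)
        have hle : IntermediateField.adjoin E {s ^ p} ≤ IntermediateField.adjoin E {s} := by
          rw [IntermediateField.adjoin_le_iff]
          intro y hy
          rw [Set.mem_singleton_iff] at hy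
          rw [hy]
          exact pow_mem (IntermediateField.mem_adjoin_simple_self E s) p
        have hfin' : FiniteDimensional (IntermediateField.adjoin E {s}) L := by
          let _ : Algebra (IntermediateField.adjoin E {s ^ p}) (IntermediateField.adjoin E {s}) :=
            (IntermediateField.inclusion hle).toAlgebra
          have : IsScalarTower (IntermediateField.adjoin E {s ^ p})
              (IntermediateField.adjoin E {s}) L := IsScalarTower.of_algebraMap_eq (fun _ => rfl)
          exact FiniteDimensional.right (IntermediateField.adjoin E {s ^ p}) _ L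
        have h1 := IntermediateField.relfinrank_mul_finrank_top hle
        have h2 : IntermediateField.relfinrank (IntermediateField.adjoin E {s ^ p})
            (IntermediateField.adjoin E {s}) ≠ 1 := by
          intro h
          rw [IntermediateField.relfinrank_eq_one_iff] at h
          exact not_mem_pow p hs (h (IntermediateField.mem_adjoin_simple_self E s))
        have h3 : 0 < Module.finrank (IntermediateField.adjoin E {s ^ p}) L := Module.finrank_pos
        have h4 : 0 < Module.finrank (IntermediateField.adjoin E {s}) L := Module.finrank_pos
        have h5 : IntermediateField.relfinrank (IntermediateField.adjoin E {s ^ p})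
            (IntermediateField.adjoin E {s}) ≠ 0 := by
          intro h
          rw [h, zero_mul] at h1
          omega
        have h6 : Module.finrank (IntermediateField.adjoin E {s}) L < n := by
          rw [← hn, ← h1]
          have h7 : 2 ≤ IntermediateField.relfinrank (IntermediateField.adjoin E {s ^ p})
            (IntermediateField.adjoin E {s}) := by omega
          nlinarith
        obtain ⟨s', e1, e2, e3, e4⟩ := ih _ h6 s hs hfin' rfl
        exact ⟨s', e1, e2, e3, e4.trans h6.le⟩
      · push Not at hp
        exact ⟨t, ht, sep_of_not_pow p E L t ht hp, hfin, hn.le⟩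
  exact main _ t ht hfin rfl

end Pool.Agent.Y93.SB
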